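import Pool.Agent.Y156.E.Main

/-!
# Etale motivic cohomology in all degrees at most `2 d`: rational maps in dimension at most three

The question is whether `H^i(X_et, ℤ(d))`, `d = dim X`, is finitely generated for all `i ≤ 2 d`, for all
proper regular connected arithmetic schemes `X`. Say that `X'` covers `X` if there is a projective
surjective morphism from `X'` to `X`, or if `X'` is projective of dimension at most three and there is a
dominant rational map from `X'` to `X`.

1. If `X'` covers `X`, `dim X' = dim X + e`, `n ≥ dim X`, and `H^i(X'_et, ℤ(n + e))` is finitely generated for
  all `i ≤ 2 (n + e)`, then `H^i(X_et, ℤ(n))` is finitely generated for all `i ≤ 2 n`. In particular (for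
  `n = dim X`) the question is birationally invariant for projective schemes of dimension at most three.
2. The question has a positive answer for all `X` that are covered by a projective bundle over a scheme
  of dimension at most one. For instance, this holds if `dim X ≤ 3` and the generic fibre of `X` is a
  geometrically rational surface over a number field. The base of the bundle can be any scheme with the
  property `FiniteAndZero` (so the question for `X` of dimension three with a ruled generic fibre reduces
  to arithmetic surfaces).

The etale motivic cohomology is given by its known properties (`IsEtale`).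
-/

set_option autoImplicit false

namespace Pool.Agent.Results.MP_b197b4_nt.RationalDomination

open Pool.Agent.Y156.E

/-- Descent along rational maps in dimension at most three, and covered schemes. -/
theorem result (T : EtaleData) (hT : IsEtale T) :
    (∀ {X' X : T.V}, Covers X' X → ∀ n : ℤ, (T.dim X : ℤ) ≤ n →
      FiniteInWeight X' (n + ((T.dim X' : ℤ) - T.dim X)) → FiniteInWeight X n) ∧
    (∀ {P Y X : T.V} {k : ℕ}, T.IsBundle P Y k → (T.dim Y ≤ 1 ∨ FiniteAndZero Y) →
      Covers P X → FiniteInWeight X (T.dim X) ∧ FiniteAndZero X) := by
  refine ⟨fun h n hn hfg i hi => fg_of_covers hT h hn hi (hfg _ (by linarith)), fun h hY hX => ?_⟩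
  have h1 := finiteAndZero_of_covers hT h hY hX
  exact ⟨(h1 _ le_rfl).1, h1⟩

end Pool.Agent.Results.MP_b197b4_nt.RationalDomination
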