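import Pool.Agent.Y156.E.Main

/-!
# Finite generation in all degrees at most `2 d`: the vanishing part is automatic

The question is whether `H^i(X_et, ℤ(d))`, `d = dim X`, is finitely generated for all `i ≤ 2 d`, for all
proper regular connected arithmetic schemes `X`. For a single `X`, it consists of (a) the finite
generation for `0 ≤ i ≤ 2 d` and (b) the vanishing of the groups for `i < 0`, a case of the conjecture of
Beilinson and Soule.

The question is equivalent to the part (a) alone, for all `X`, or only for the schemes of large dimension
in a class such that each `X` has a projective surjective morphism from an element of the class. It is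
also equivalent to the finite generation of `H^i(X_et, ℤ(n))` for all `X`, all `n ≥ dim X` and all `i ≤ 2 n`,
with the vanishing of these groups for `i < 0`. So, for all schemes together, (b) follows from (a).

The etale motivic cohomology is given by its known properties (`IsEtale`).
-/

set_option autoImplicit false

namespace Pool.Agent.Results.MP_b197b4_nt.VanishingIsAutomatic

open Pool.Agent.Y156.E

/-- The part (b) of the question follows from the part (a), for all schemes together. -/
theorem result (T : EtaleData) (hT : IsEtale T) {S : T.V → Prop} (hS : Dominating S) (D : ℕ) :
    ((∀ X, FiniteInWeight X (T.dim X)) ↔ ∀ X, S X → D ≤ T.dim X → FiniteInRange X) ∧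
    ((∀ X, FiniteInWeight X (T.dim X)) ↔ ∀ X : T.V, FiniteAndZero X) := by
  have key : (∀ X, S X → D ≤ T.dim X → FiniteInRange X) → ∀ X : T.V, FiniteAndZero X :=
    fun hfg => finiteAndZero_of_range hT hS D hfg
  exact ⟨⟨fun h X _ _ i _ hi => h X i hi, fun h X => (key h X _ le_rfl).1⟩,
    ⟨fun h => key fun X _ _ i _ hi => h X i hi, fun h X => (h X _ le_rfl).1⟩⟩

end Pool.Agent.Results.MP_b197b4_nt.VanishingIsAutomatic
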